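import Mathlib
import Pool.Agent.Work.MP_959bfa_lin_helper27.Main
import Pool.Agent.Work.MP_959bfa_lin_helper27.Own

/-!
# MP_959bfa_co: weak nets of linear size for axis-parallel rectangles

Full answer to Q1 (yes), in the weighted form: take the weight `1 / k` on the points of `A`.
-/

set_option autoImplicit false

namespace Pool.Agent.Results.MP_959bfa_co.LinearNets

/-- There is an absolute constant `C` such that for every finite set `X` of points of the plane
with nonnegative weights `w` there is a set of at most `C * (total weight)` points of the plane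
which meets every closed axis-parallel rectangle `[l, r] × [b, t]` of weight at least `1`. -/
theorem result :
    ∃ C : ℝ, 0 < C ∧ ∀ (X : Finset (ℝ × ℝ)) (w : ℝ × ℝ → ℝ), (∀ x ∈ X, 0 ≤ w x) →
      ∃ Z : Finset (ℝ × ℝ), (Z.card : ℝ) ≤ C * ∑ x ∈ X, w x ∧
        ∀ l r b t : ℝ,
          1 ≤ ∑ x ∈ X.filter (fun x => l ≤ x.1 ∧ x.1 ≤ r ∧ b ≤ x.2 ∧ x.2 ≤ t), w x →
          ∃ z ∈ Z, l ≤ z.1 ∧ z.1 ≤ r ∧ b ≤ z.2 ∧ z.2 ≤ t := by
  classical
  obtain ⟨C, hC, hN⟩ := Wn.own_nets Wn.lin_BOOT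
  refine ⟨2 * C, by linarith, ?_⟩
  intro X w hw
  obtain ⟨Z, hZ, hZ2⟩ := Wn.own_gap C hC hN X w hw
  refine ⟨Z, hZ, ?_⟩
  intro l r b t h
  apply hZ2 ⟨l, r, b, t⟩
  refine h.trans (le_of_eq ?_)
  refine Finset.sum_congr ?_ (fun _ _ => rfl)
  ext x
  rw [Finset.mem_filter, Wn.mem_fl]
  exact Iff.rfl

end Pool.Agent.Results.MP_959bfa_co.LinearNets
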